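import Mathlib
import Pool.Agent.W242.IM.Form
import Pool.Agent.W242.IM.Height

/-!
# The height of the pair (characteristic polynomial, characteristic polynomial after deleting a row)
-/

set_option autoImplicit false
set_option linter.unusedSectionVars false

namespace Pool.Agent.W242.IM

open MeasureTheory Polynomial Filter Matrix

noncomputable section

variable {ι : Type*} [Fintype ι] [DecidableEq ι]

/-- logarithmic Mahler measure of `p (z + 1/z)` -/
def mp (p : ℂ[X]) : ℝ := ∫ t in (0:ℝ)..1, Real.log ‖p.eval ((tc t : ℝ) : ℂ)‖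

theorem charpoly_eval {A : Matrix ι ι ℂ} (hA : A.IsHermitian) (t : ℝ) :
    A.charpoly.eval (t : ℂ) = ((∏ j, (t - hA.eigenvalues j) : ℝ) : ℂ) := by
  rw [hA.charpoly_eq, eval_prod]
  push_cast
  refine Finset.prod_congr rfl fun j _ => ?_
  simp

theorem norm_charpoly_eval {A : Matrix ι ι ℂ} (hA : A.IsHermitian) (t : ℝ) :
    ‖A.charpoly.eval (t : ℂ)‖ = |∏ j, (t - hA.eigenvalues j)| := by
  rw [charpoly_eval hA, Complex.norm_real, Real.norm_eq_abs]

theorem mp_charpoly {A : Matrix ι ι ℂ} (hA : A.IsHermitian) :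
    IntervalIntegrable (fun t => Real.log ‖A.charpoly.eval ((tc t : ℝ) : ℂ)‖) volume 0 1 ∧
    mp A.charpoly = ∑ j, phi (hA.eigenvalues j) := by
  have h := integrable_prod hA.eigenvalues (fun t => ∏ j, (tc t - hA.eigenvalues j))
    (Eventually.of_forall fun _ => rfl)
  unfold mp
  simp_rw [norm_charpoly_eval hA]
  exact h

theorem qf_abs_le {Q : (ι → ℂ) → ℝ} {l : ι → ℝ} (h : SD Q l) (ρ : ℝ) (hρ : ∀ j, |l j| ≤ ρ)
    (y : ι → ℂ) : |Q y| ≤ ρ * nsq y := by
  obtain ⟨V, h1, h2⟩ := h
  rw [h2, ← h1 y]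
  unfold nsq
  rw [Finset.mul_sum]
  refine (Finset.abs_sum_le_sum_abs _ _).trans (Finset.sum_le_sum fun j _ => ?_)
  rw [abs_mul, abs_of_nonneg (by positivity : 0 ≤ ‖V y j‖ ^ 2)]
  exact mul_le_mul_of_nonneg_right (hρ j) (by positivity)

theorem exists_eigen {Q : (ι → ℂ) → ℝ} {l : ι → ℝ} (h : SD Q l) (j : ι) :
    ∃ y : ι → ℂ, nsq y = 1 ∧ Q y = l j := by
  obtain ⟨V, h1, h2⟩ := h
  refine ⟨V.symm (Pi.single j 1), ?_, ?_⟩
  · rw [← h1, LinearEquiv.apply_symm_apply]
    unfold nsq
    rw [Finset.sum_eq_single j]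
    · simp
    · intro b _ hb
      simp [hb]
    · simp
  · rw [h2, LinearEquiv.apply_symm_apply]
    rw [Finset.sum_eq_single j]
    · simp
    · intro b _ hb
      simp [hb]
    · simp

theorem cauchy (x y : ι → ℂ) : ‖star x ⬝ᵥ y‖ ^ 2 ≤ nsq x * nsq y := by
  have h1 : ‖star x ⬝ᵥ y‖ ≤ ∑ i, ‖x i‖ * ‖y i‖ := by
    unfold dotProduct
    refine (norm_sum_le _ _).trans (le_of_eq (Finset.sum_congr rfl fun i _ => ?_))
    rw [norm_mul, Pi.star_apply, norm_star]
  have h2 := Finset.sum_mul_sq_le_sq_mul_sq Finset.univ (fun i => ‖x i‖) (fun i => ‖y i‖)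
  refine le_trans ?_ h2
  exact pow_le_pow_left₀ (norm_nonneg _) h1 2

/-- the linear functional `y ↦ x^* y` -/
def fnl (x : ι → ℂ) : (ι → ℂ) →ₗ[ℂ] ℂ where
  toFun y := star x ⬝ᵥ y
  map_add' a b := dotProduct_add _ _ _
  map_smul' a b := by rw [dotProduct_smul]; rfl

/-- the rank one perturbation -/
def pert (A : Matrix ι ι ℂ) (x : ι → ℂ) (c : ℝ) : Matrix ι ι ℂ :=
  A + (c : ℂ) • vecMulVec x (star x)

theorem pert_hermitian {A : Matrix ι ι ℂ} (hA : A.IsHermitian) (x : ι → ℂ) (c : ℝ) :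
    (pert A x c).IsHermitian := by
  unfold pert
  refine hA.add ?_
  unfold Matrix.IsHermitian
  ext i j
  simp only [conjTranspose_apply, Matrix.smul_apply, vecMulVec_apply, Pi.star_apply, smul_eq_mul,
    star_mul', Complex.star_def, Complex.conj_ofReal, Complex.conj_conj]
  ring

theorem qf_pert (A : Matrix ι ι ℂ) (x : ι → ℂ) (c : ℝ) (y : ι → ℂ) :
    qf (pert A x c) y = qf A y + c * ‖star x ⬝ᵥ y‖ ^ 2 := by
  unfold qf pert
  rw [add_mulVec, dotProduct_add, Complex.add_re, smul_mulVec, dotProduct_smul]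
  congr 1
  have h1 : star y ⬝ᵥ (vecMulVec x (star x) *ᵥ y) = star (star x ⬝ᵥ y) * (star x ⬝ᵥ y) := by
    have e1 : vecMulVec x (star x) *ᵥ y = (star x ⬝ᵥ y) • x := by
      ext i
      simp only [mulVec, dotProduct, vecMulVec_apply, Pi.smul_apply, smul_eq_mul]
      rw [Finset.sum_mul]
      refine Finset.sum_congr rfl fun j _ => ?_
      ring
    rw [e1, dotProduct_smul, smul_eq_mul]
    have e2 : star y ⬝ᵥ x = star (star x ⬝ᵥ y) := by
      unfold dotProduct
      rw [star_sum]
      refine Finset.sum_congr rfl fun j _ => ?_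
      simp [mul_comm]
    rw [e2]
    ring
  rw [h1, smul_eq_mul]
  have h2 : star (star x ⬝ᵥ y) * (star x ⬝ᵥ y) = ((‖star x ⬝ᵥ y‖ ^ 2 : ℝ) : ℂ) := by
    have := Complex.normSq_eq_conj_mul_self (z := star x ⬝ᵥ y)
    rw [Complex.normSq_eq_norm_sq] at this
    exact this.symm
  rw [h2, ← Complex.ofReal_mul, Complex.ofReal_re]

theorem phi_add_le {ρ L : ℝ} (hρ : 0 ≤ ρ) (hL : 0 ≤ L) :
    phi (ρ + 2 * L) ≤ phi ρ + Real.log (2 + 2 * L) := by
  refine (phi_le_posLog _).trans ?_
  have h1 := posLog_half_le_phi ρ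
  refine le_trans ?_ (add_le_add_left h1 _)
  rw [Real.posLog_eq_log_max_one (abs_nonneg _), Real.posLog_eq_log_max_one (by positivity),
    ← Real.log_mul (by positivity) (by positivity), abs_of_nonneg (by positivity : 0 ≤ ρ + 2 * L),
    abs_of_nonneg hρ]
  refine Real.log_le_log (by positivity) ?_
  rcases le_total ρ 2 with h | h
  · refine max_le ?_ ?_
    · have := le_max_left 1 (ρ / 2)
      nlinarith
    · have := le_max_left 1 (ρ / 2)
      nlinarith
  · rw [max_eq_right (by linarith : 1 ≤ ρ / 2)]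
    refine max_le ?_ ?_
    · nlinarith
    · nlinarith

theorem sum_phi_pert {A : Matrix ι ι ℂ} (hA : A.IsHermitian) (x : ι → ℂ) (L : ℝ)
    (hx : nsq x ≤ L) (c : ℝ) (hc : |c| ≤ 2) :
    ∑ j, phi ((pert_hermitian hA x c).eigenvalues j) ≤
      3 * ∑ j, phi (hA.eigenvalues j) + 2 * Real.log (2 + 2 * L) := by
  have hL : 0 ≤ L := (nsq_nonneg x).trans hx
  have hlog : 0 ≤ Real.log (2 + 2 * L) := Real.log_nonneg (by linarith)
  have hs0 : 0 ≤ ∑ j, phi (hA.eigenvalues j) := Finset.sum_nonneg fun _ _ => phi_nonneg _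
  rcases isEmpty_or_nonempty ι with he | he
  · rw [Finset.univ_eq_empty, Finset.sum_empty, Finset.sum_empty]
    linarith
  obtain ⟨i0, hi0⟩ := Finite.exists_max fun i => |hA.eigenvalues i|
  set ρ := |hA.eigenvalues i0| with hρ
  have hA' := sd_of_hermitian hA
  have hB' := sd_of_hermitian (pert_hermitian hA x c)
  have hbound : ∀ j, |(pert_hermitian hA x c).eigenvalues j| ≤ ρ + 2 * L := by
    intro j
    obtain ⟨y, hy1, hy2⟩ := exists_eigen hB' j
    rw [← hy2, qf_pert]
    have h1 := qf_abs_le hA' ρ hi0 y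
    have h2 := cauchy x y
    rw [hy1, mul_one] at h1 h2
    have h3 : |c * ‖star x ⬝ᵥ y‖ ^ 2| ≤ 2 * L := by
      rw [abs_mul, abs_of_nonneg (by positivity : 0 ≤ ‖star x ⬝ᵥ y‖ ^ 2)]
      exact mul_le_mul hc (h2.trans hx) (by positivity) (by norm_num)
    exact (abs_add_le _ _).trans (add_le_add h1 h3)
  have hmain := sum_phi_le hA' hB' LinearMap.id (F := ℂ)
    (fnl x) (fun y hy => ⟨rfl, ?_⟩) (ρ + 2 * L) hbound
  · rw [Module.finrank_self] at hmain
    have h1 := phi_add_le (abs_nonneg (hA.eigenvalues i0)) hL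
    have h2 : phi ρ ≤ ∑ j, phi (hA.eigenvalues j) := by
      have h3 : phi ρ = phi (hA.eigenvalues i0) := by
        rw [hρ]
        rcases abs_choice (hA.eigenvalues i0) with h | h
        · rw [h]
        · rw [h, phi_neg]
      rw [h3]
      exact Finset.single_le_sum (f := fun j => phi (hA.eigenvalues j))
        (fun _ _ => phi_nonneg _) (Finset.mem_univ i0)
    push_cast at hmain
    linarith
  · rw [qf_pert]
    have : star x ⬝ᵥ y = 0 := hy
    rw [this]
    simp

/-! ### Deleting one row -/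

theorem charmatrix_pert (A : Matrix ι ι ℂ) (v : ι) (c : ℝ) :
    charmatrix (pert A (Pi.single v 1) c) =
      updateRow (charmatrix A) v (charmatrix A v + (-(C (c : ℂ))) • Pi.single v (1 : ℂ[X])) := by
  ext1 i j
  rw [updateRow_apply]
  unfold pert
  rw [charmatrix_apply, Matrix.add_apply, Matrix.smul_apply, vecMulVec_apply]
  by_cases hi : i = v
  · subst hi
    rw [if_pos rfl]
    simp only [Pi.add_apply, Pi.smul_apply, charmatrix_apply]
    by_cases hj : j = i
    · subst hj
      simp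
      ring
    · simp [hj]
  · rw [if_neg hi, charmatrix_apply]
    simp [hi]

/-- `A` with the row and the column `v` deleted -/
def del (A : Matrix ι ι ℂ) (v : ι) : Matrix {i // i ≠ v} {i // i ≠ v} ℂ :=
  A.submatrix Subtype.val Subtype.val

theorem det_updateRow_single (M : Matrix ι ι ℂ[X]) (v : ι) :
    (updateRow M v (Pi.single v 1)).det =
      (M.submatrix (Subtype.val : {i // i ≠ v} → ι) (Subtype.val : {i // i ≠ v} → ι)).det := by
  rw [twoBlockTriangular_det _ (fun i => i ≠ v)]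
  · have h1 : toSquareBlockProp (updateRow M v (Pi.single v 1)) (fun i => i ≠ v) =
        M.submatrix (Subtype.val : {i // i ≠ v} → ι) (Subtype.val : {i // i ≠ v} → ι) := by
      ext1 i j
      rw [toSquareBlockProp_def, of_apply, updateRow_ne i.2]
      rfl
    rw [h1]
    have hu : ∀ a : {i // ¬ i ≠ v}, a = ⟨v, by simp⟩ := by
      rintro ⟨a, ha⟩
      simp only [ne_eq, not_not] at ha
      subst ha
      rfl
    have : Unique {i // ¬ i ≠ v} := ⟨⟨⟨v, by simp⟩⟩, hu⟩
    have h2 : (toSquareBlockProp (updateRow M v (Pi.single v 1)) (fun i => ¬ i ≠ v)).det = 1 := by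
      rw [det_unique, toSquareBlockProp_def, of_apply, hu default]
      simp
    rw [h2, mul_one]
  · intro i hi j hj
    simp only [ne_eq, not_not] at hi
    subst hi
    rw [updateRow_self]
    simp [hj]

theorem charpoly_pert (A : Matrix ι ι ℂ) (v : ι) (c : ℝ) :
    (pert A (Pi.single v 1) c).charpoly = A.charpoly - C (c : ℂ) * (del A v).charpoly := by
  unfold Matrix.charpoly
  rw [charmatrix_pert, det_updateRow_add, det_updateRow_smul]
  have h1 : updateRow (charmatrix A) v (charmatrix A v) = charmatrix A := updateRow_eq_self _ _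
  rw [h1, det_updateRow_single]
  have h2 : (charmatrix A).submatrix (Subtype.val : {i // i ≠ v} → ι)
      (Subtype.val : {i // i ≠ v} → ι) = charmatrix (del A v) := by
    ext1 i j
    rw [Matrix.submatrix_apply, charmatrix_apply, charmatrix_apply]
    unfold del
    rw [Matrix.submatrix_apply]
    congr 1
    simp only [diagonal_apply]
    congr 1
    exact propext Subtype.ext_iff.symm
  rw [h2]
  ring

theorem del_hermitian {A : Matrix ι ι ℂ} (hA : A.IsHermitian) (v : ι) : (del A v).IsHermitian :=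
  hA.submatrix _

/-- The height of the pair given by deleting a row. -/
theorem height_del {A : Matrix ι ι ℂ} (hA : A.IsHermitian) (v : ι) :
    IntervalIntegrable (fun t => Real.log (max ‖A.charpoly.eval ((tc t : ℝ) : ℂ)‖
      ‖(del A v).charpoly.eval ((tc t : ℝ) : ℂ)‖)) volume 0 1 ∧
    ∫ t in (0:ℝ)..1, Real.log (max ‖A.charpoly.eval ((tc t : ℝ) : ℂ)‖
      ‖(del A v).charpoly.eval ((tc t : ℝ) : ℂ)‖) ≤ 3 * mp A.charpoly + 5 * Real.log 2 := by
  have h := height_abs (ι := ι) (fun t => ∏ j, (t - hA.eigenvalues j))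
    (fun t => ∏ j, (t - (del_hermitian hA v).eigenvalues j)) (by fun_prop) (by fun_prop)
    (3 * mp A.charpoly + 4 * Real.log 2) (fun c hc =>
      ⟨(pert_hermitian hA (Pi.single v 1) c).eigenvalues, Eventually.of_forall fun t => ?_, ?_⟩)
  · simp_rw [norm_charpoly_eval hA, norm_charpoly_eval (del_hermitian hA v)]
    exact ⟨h.1, h.2.trans (by linarith)⟩
  · have h1 := congrArg (fun p : ℂ[X] => p.eval ((tc t : ℝ) : ℂ)) (charpoly_pert A v c)
    simp only [eval_sub, eval_mul, eval_C] at h1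
    rw [charpoly_eval (pert_hermitian hA (Pi.single v 1) c), charpoly_eval hA,
      charpoly_eval (del_hermitian hA v)] at h1
    exact_mod_cast h1.symm
  · have h1 := sum_phi_pert hA (Pi.single v 1) 1 (le_of_eq (by
      unfold nsq
      rw [Finset.sum_eq_single v]
      · simp
      · intro b _ hb
        simp [hb]
      · simp)) c hc
    rw [(mp_charpoly hA).2]
    have h2 : Real.log (2 + 2 * 1) = 2 * Real.log 2 := by
      rw [show (2 + 2 * 1 : ℝ) = 2 ^ 2 by norm_num, Real.log_pow]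
      norm_num
    rw [h2] at h1
    linarith

/-! ### Principal submatrices -/

theorem extend_sum {κ : Type*} [Fintype κ] (f : κ → ι) (hf : Function.Injective f) (x : κ → ℂ)
    {M : Type*} [AddCommMonoid M] (g : ι → ℂ → M) (hg : ∀ i, g i 0 = 0) :
    ∑ i, g i (Function.extend f x 0 i) = ∑ k, g (f k) (x k) := by
  refine (Fintype.sum_of_injective f hf _ _ (fun i hi => ?_) (fun k => ?_)).symm
  · rw [Function.extend_apply' (f := f) x (0 : ι → ℂ) i (by rintro ⟨a, ha⟩; exact hi ⟨a, ha⟩)]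
    exact hg i
  · rw [hf.extend_apply]

theorem nsq_extend {κ : Type*} [Fintype κ] (f : κ → ι) (hf : Function.Injective f) (x : κ → ℂ) :
    nsq (Function.extend f x 0) = nsq x :=
  extend_sum f hf x (fun _ z => ‖z‖ ^ 2) (by simp)

theorem qf_extend {κ : Type*} [Fintype κ] (f : κ → ι) (hf : Function.Injective f) (x : κ → ℂ)
    (A : Matrix ι ι ℂ) : qf A (Function.extend f x 0) = qf (A.submatrix f f) x := by
  unfold qf
  congr 1
  have h1 : ∀ i, (A *ᵥ Function.extend f x 0) i = ∑ k, A i (f k) * x k := fun i =>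
    extend_sum f hf x (fun j z => A i j * z) (by simp)
  have h2 : star (Function.extend f x 0) ⬝ᵥ (A *ᵥ Function.extend f x 0) =
      ∑ i, star (Function.extend f x 0 i) * (A *ᵥ Function.extend f x 0) i := rfl
  rw [h2]
  rw [extend_sum f hf x (fun i z => star z * (A *ᵥ Function.extend f x 0) i) (by simp)]
  simp only [h1]
  rfl

/-- Cauchy interlacing for the measures. -/
theorem mp_submatrix_le {κ : Type*} [Fintype κ] [DecidableEq κ] (f : κ → ι)
    (hf : Function.Injective f) {A : Matrix ι ι ℂ} (hA : A.IsHermitian) :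
    mp (A.submatrix f f).charpoly ≤ mp A.charpoly := by
  have hB : (A.submatrix f f).IsHermitian := hA.submatrix f
  rw [(mp_charpoly hA).2, (mp_charpoly hB).2]
  have h := sum_phi_le (sd_of_hermitian hA) (sd_of_hermitian hB)
    (Function.ExtendByZero.linearMap ℂ f) (F := Fin 0 → ℂ) 0
    (fun x _ => ⟨nsq_extend f hf x, qf_extend f hf x A⟩)
    (∑ j, |hB.eigenvalues j|) (fun j => Finset.single_le_sum (f := fun j => |hB.eigenvalues j|)
      (fun _ _ => abs_nonneg _) (Finset.mem_univ j))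
  simpa using h

end

end Pool.Agent.W242.IM
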