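import Mathlib
import Pool.Agent.W242.IM.Herm

/-!
# Principal submatrices indexed by finsets, and the height after deleting several rows
-/

set_option autoImplicit false
set_option linter.unusedSectionVars false

namespace Pool.Agent.W242.IM

open MeasureTheory Polynomial Filter Matrix

noncomputable section

variable {ι : Type*} [Fintype ι] [DecidableEq ι]

/-- principal submatrix -/
def sm (A : Matrix ι ι ℂ) (U : Finset ι) : Matrix U U ℂ := A.submatrix Subtype.val Subtype.val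

/-- its characteristic polynomial -/
def cp (A : Matrix ι ι ℂ) (U : Finset ι) : ℂ[X] := (sm A U).charpoly

theorem sm_hermitian {A : Matrix ι ι ℂ} (hA : A.IsHermitian) (U : Finset ι) :
    (sm A U).IsHermitian := hA.submatrix _

/-- the equivalence for deleting one more row -/
def eraseEquiv (U : Finset ι) (v : ι) (hv : v ∈ U) :
    {i : U // i ≠ (⟨v, hv⟩ : U)} ≃ (U.erase v : Finset ι) where
  toFun i := ⟨i.1.1, Finset.mem_erase.mpr ⟨fun h => i.2 (Subtype.ext h), i.1.2⟩⟩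
  invFun i := ⟨⟨i.1, (Finset.mem_erase.mp i.2).2⟩,
    fun h => (Finset.mem_erase.mp i.2).1 (congrArg Subtype.val h)⟩
  left_inv i := rfl
  right_inv i := rfl

theorem cp_erase (A : Matrix ι ι ℂ) (U : Finset ι) (v : ι) (hv : v ∈ U) :
    (del (sm A U) ⟨v, hv⟩).charpoly = cp A (U.erase v) := by
  rw [← charpoly_reindex (eraseEquiv U v hv) (del (sm A U) ⟨v, hv⟩)]
  rfl

theorem height_erase {A : Matrix ι ι ℂ} (hA : A.IsHermitian) (U : Finset ι) (v : ι) (hv : v ∈ U) :
    IntervalIntegrable (fun t => Real.log (max ‖(cp A U).eval ((tc t : ℝ) : ℂ)‖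
      ‖(cp A (U.erase v)).eval ((tc t : ℝ) : ℂ)‖)) volume 0 1 ∧
    ∫ t in (0:ℝ)..1, Real.log (max ‖(cp A U).eval ((tc t : ℝ) : ℂ)‖
      ‖(cp A (U.erase v)).eval ((tc t : ℝ) : ℂ)‖) ≤ 3 * mp (cp A U) + 5 * Real.log 2 := by
  rw [← cp_erase A U v hv]
  exact height_del (sm_hermitian hA U) ⟨v, hv⟩

theorem mp_mono {A : Matrix ι ι ℂ} (hA : A.IsHermitian) {W U : Finset ι} (h : W ⊆ U) :
    mp (cp A W) ≤ mp (cp A U) := by
  have h1 := mp_submatrix_le (A := sm A U) (fun w : W => (⟨w.1, h w.2⟩ : U))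
    (fun a b hab => Subtype.ext (congrArg (fun u : U => u.1) hab)) (sm_hermitian hA U)
  exact h1

theorem cp_nonneg {A : Matrix ι ι ℂ} (hA : A.IsHermitian) (U : Finset ι) : 0 ≤ mp (cp A U) := by
  unfold cp
  rw [(mp_charpoly (sm_hermitian hA U)).2]
  exact Finset.sum_nonneg fun _ _ => phi_nonneg _

theorem cp_ae {A : Matrix ι ι ℂ} (hA : A.IsHermitian) (U : Finset ι) :
    ∀ᵐ t : ℝ, (cp A U).eval ((tc t : ℝ) : ℂ) ≠ 0 := by
  filter_upwards [ae_prod (sm_hermitian hA U).eigenvalues] with t ht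
  have h := norm_charpoly_eval (sm_hermitian hA U) (tc t)
  intro h0
  unfold cp at h0
  rw [h0, norm_zero] at h
  exact ht.1 (abs_eq_zero.mp h.symm)

theorem bounded_eval (p : ℂ[X]) : ∃ B : ℝ, 1 ≤ B ∧ ∀ t : ℝ, ‖p.eval ((tc t : ℝ) : ℂ)‖ ≤ B := by
  obtain ⟨M, hM⟩ := (isCompact_Icc (a := (-2:ℝ)) (b := 2)).bddAbove_image
    (f := fun x : ℝ => ‖p.eval ((x : ℝ) : ℂ)‖) (by fun_prop)
  refine ⟨max M 1, le_max_right _ _, fun t => le_trans (hM ⟨tc t, ?_, rfl⟩) (le_max_left _ _)⟩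
  exact abs_le.mp (abs_tc_le t)

theorem integrable_logmax (p q : ℂ[X])
    (hp : IntervalIntegrable (fun t => Real.log ‖p.eval ((tc t : ℝ) : ℂ)‖) volume 0 1)
    (hp0 : ∀ᵐ t : ℝ, p.eval ((tc t : ℝ) : ℂ) ≠ 0) :
    IntervalIntegrable (fun t => Real.log (max ‖p.eval ((tc t : ℝ) : ℂ)‖
      ‖q.eval ((tc t : ℝ) : ℂ)‖)) volume 0 1 := by
  obtain ⟨B1, hB1, h1⟩ := bounded_eval p
  obtain ⟨B2, hB2, h2⟩ := bounded_eval q
  set B := Real.log (max B1 B2) with hB
  have hB0 : 0 ≤ B := Real.log_nonneg (hB1.trans (le_max_left _ _))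
  have hbnd : IntervalIntegrable (fun t => B + abs (Real.log ‖p.eval ((tc t : ℝ) : ℂ)‖))
      volume 0 1 := intervalIntegrable_const.add hp.abs
  have hc := continuous_tc
  refine hbnd.mono_fun ?_ ?_
  · have h3 : Continuous fun t => max ‖p.eval ((tc t : ℝ) : ℂ)‖ ‖q.eval ((tc t : ℝ) : ℂ)‖ := by
      have e1 : Continuous fun t => p.eval ((tc t : ℝ) : ℂ) := p.continuous.comp (by fun_prop)
      have e2 : Continuous fun t => q.eval ((tc t : ℝ) : ℂ) := q.continuous.comp (by fun_prop)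
      fun_prop
    exact (Real.measurable_log.comp h3.measurable).aestronglyMeasurable
  · filter_upwards [ae_restrict_of_ae hp0] with t ht
    have h3 : 0 < ‖p.eval ((tc t : ℝ) : ℂ)‖ := norm_pos_iff.mpr ht
    have h4 := Real.log_le_log h3 (le_max_left _ ‖q.eval ((tc t : ℝ) : ℂ)‖)
    have h5 : Real.log (max ‖p.eval ((tc t : ℝ) : ℂ)‖ ‖q.eval ((tc t : ℝ) : ℂ)‖) ≤ B :=
      Real.log_le_log (lt_of_lt_of_le h3 (le_max_left _ _)) (max_le_max (h1 t) (h2 t))
    have h8 : 0 ≤ B + abs (Real.log ‖p.eval ((tc t : ℝ) : ℂ)‖) := by positivity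
    rw [Real.norm_eq_abs, Real.norm_eq_abs, abs_of_nonneg h8, abs_le]
    have h6 := neg_abs_le (Real.log ‖p.eval ((tc t : ℝ) : ℂ)‖)
    have h7 := abs_nonneg (Real.log ‖p.eval ((tc t : ℝ) : ℂ)‖)
    constructor <;> linarith

theorem cp_integrable {A : Matrix ι ι ℂ} (hA : A.IsHermitian) (U : Finset ι) :
    IntervalIntegrable (fun t => Real.log ‖(cp A U).eval ((tc t : ℝ) : ℂ)‖) volume 0 1 :=
  (mp_charpoly (sm_hermitian hA U)).1

/-- The height of the pair obtained by deleting several rows. -/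
theorem height_chain {A : Matrix ι ι ℂ} (hA : A.IsHermitian) (U S : Finset ι) (hS : S ⊆ U) :
    ∫ t in (0:ℝ)..1, Real.log (max ‖(cp A U).eval ((tc t : ℝ) : ℂ)‖
      ‖(cp A (U \ S)).eval ((tc t : ℝ) : ℂ)‖) ≤
      mp (cp A U) + S.card * (2 * mp (cp A U) + 5 * Real.log 2) := by
  induction S using Finset.induction_on with
  | empty =>
    simp only [Finset.sdiff_empty, max_self, Finset.card_empty, Nat.cast_zero, zero_mul, add_zero]
    exact le_rfl
  | insert a S ha ih =>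
    have hSU : S ⊆ U := (Finset.subset_insert a S).trans hS
    have haU : a ∈ U \ S := Finset.mem_sdiff.mpr ⟨hS (Finset.mem_insert_self a S), ha⟩
    have ih' := ih hSU
    have he : U \ insert a S = (U \ S).erase a := by
      ext i
      simp only [Finset.mem_sdiff, Finset.mem_insert, Finset.mem_erase, not_or]
      tauto
    rw [he]
    obtain ⟨h1, h2⟩ := height_erase hA (U \ S) a haU
    have h3 := mp_mono hA (Finset.sdiff_subset : U \ S ⊆ U)
    have hi1 := integrable_logmax (cp A U) (cp A (U \ S)) (cp_integrable hA U) (cp_ae hA U)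
    have hi2 := integrable_logmax (cp A U) (cp A ((U \ S).erase a)) (cp_integrable hA U) (cp_ae hA U)
    have h4 : ∫ t in (0:ℝ)..1, Real.log (max ‖(cp A U).eval ((tc t : ℝ) : ℂ)‖
        ‖(cp A ((U \ S).erase a)).eval ((tc t : ℝ) : ℂ)‖) ≤
        ∫ t in (0:ℝ)..1, (Real.log (max ‖(cp A U).eval ((tc t : ℝ) : ℂ)‖
          ‖(cp A (U \ S)).eval ((tc t : ℝ) : ℂ)‖) +
          Real.log (max ‖(cp A (U \ S)).eval ((tc t : ℝ) : ℂ)‖
            ‖(cp A ((U \ S).erase a)).eval ((tc t : ℝ) : ℂ)‖) -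
          Real.log ‖(cp A (U \ S)).eval ((tc t : ℝ) : ℂ)‖) := by
      refine intervalIntegral.integral_mono_ae zero_le_one hi2
        ((hi1.add h1).sub (cp_integrable hA (U \ S))) ?_
      filter_upwards [cp_ae hA U, cp_ae hA (U \ S)] with t ht1 ht2
      have hx : 0 < ‖(cp A U).eval ((tc t : ℝ) : ℂ)‖ := norm_pos_iff.mpr ht1
      have hy : 0 < ‖(cp A (U \ S)).eval ((tc t : ℝ) : ℂ)‖ := norm_pos_iff.mpr ht2
      have hz : 0 ≤ ‖(cp A ((U \ S).erase a)).eval ((tc t : ℝ) : ℂ)‖ := norm_nonneg _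
      set x := ‖(cp A U).eval ((tc t : ℝ) : ℂ)‖
      set y := ‖(cp A (U \ S)).eval ((tc t : ℝ) : ℂ)‖
      set z := ‖(cp A ((U \ S).erase a)).eval ((tc t : ℝ) : ℂ)‖
      have h5 : 0 < max x z := lt_of_lt_of_le hx (le_max_left _ _)
      have h6 : 0 < max x y := lt_of_lt_of_le hx (le_max_left _ _)
      have h7 : 0 < max y z := lt_of_lt_of_le hy (le_max_left _ _)
      have h8 : max x z * y ≤ max x y * max y z := by
        rw [max_mul_of_nonneg _ _ hy.le]
        refine max_le ?_ ?_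
        · exact mul_le_mul (le_max_left _ _) (le_max_left _ _) hy.le h6.le
        · rw [mul_comm]
          exact mul_le_mul (le_max_right _ _) (le_max_right _ _) hz h6.le
      have h9 := Real.log_le_log (by positivity) h8
      rw [Real.log_mul h5.ne' hy.ne', Real.log_mul h6.ne' h7.ne'] at h9
      linarith
    rw [intervalIntegral.integral_sub (hi1.add h1) (cp_integrable hA (U \ S)),
      intervalIntegral.integral_add hi1 h1] at h4
    have h5 : (∫ t in (0:ℝ)..1, Real.log ‖(cp A (U \ S)).eval ((tc t : ℝ) : ℂ)‖) =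
      mp (cp A (U \ S)) := rfl
    rw [h5] at h4
    rw [Finset.card_insert_of_notMem ha]
    push_cast
    linarith

end

end Pool.Agent.W242.IM
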