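import Mathlib
import Pool.Agent.W242.IM.IntPoly
import Pool.Agent.W242.IM.Sub

/-!
# From pairs `(p, q)` to coprime pairs of bounded height
-/

set_option autoImplicit false

namespace Pool.Agent.W242.IM

open MeasureTheory Polynomial Filter Topology
open Pool.Agent.H261R2.CM

noncomputable section

/-- the height of the pair `(p (z + 1/z), q (z + 1/z))` -/
def hp (p q : ℂ[X]) : ℝ := ∫ t in (0:ℝ)..1,
  Real.log (max ‖p.eval ((tc t : ℝ) : ℂ)‖ ‖q.eval ((tc t : ℝ) : ℂ)‖)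

theorem pair_main (p q : ℤ[X]) (hpm : p.Monic) (hq : q ≠ 0)
    (hgcd : ∀ d : ℤ[X], d ∣ p → d ∣ q → mp (toC d) = 0) :
    ∃ A B : ℤ[X], A ≠ 0 ∧ B ≠ 0 ∧ IsRelPrime A B ∧ mx1 A B = hp (toC p) (toC q) ∧
      Real.log (m1 A) = mp (toC p) := by
  obtain ⟨a, b, d, hab, ha, hb⟩ :=
    UniqueFactorizationMonoid.exists_reduced_factors p hpm.ne_zero q
  have hd0 : d ≠ 0 := by
    rintro rfl
    exact hpm.ne_zero (by rw [← ha, zero_mul])
  have ha0 : a ≠ 0 := by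
    rintro rfl
    exact hpm.ne_zero (by rw [← ha, mul_zero])
  have hb0 : b ≠ 0 := by
    rintro rfl
    exact hq (by rw [← hb, mul_zero])
  have hu : IsUnit a.leadingCoeff := by
    have h1 : d.leadingCoeff * a.leadingCoeff = 1 := by
      rw [← leadingCoeff_mul, ha]
      exact hpm
    exact isUnit_iff_exists_inv.mpr ⟨d.leadingCoeff, by rw [mul_comm]; exact h1⟩
  have hd : mp (toC d) = 0 := hgcd d ⟨a, ha.symm⟩ ⟨b, hb.symm⟩
  have hlog : Real.log (m1 (Rc a.natDegree a)) = mp (toC p) := by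
    rw [← mp_eq_log_m1 _ a le_rfl, ← ha, mp_int_mul d a hd0 ha0, hd, zero_add]
  refine ⟨Rc a.natDegree a, Rc b.natDegree b, Rc_ne _ _ le_rfl ha0, Rc_ne _ _ le_rfl hb0,
    relPrime_Rc a b hu hab, ?_, hlog⟩
  have h1 := mx1_mul (Rc d.natDegree d) (Rc a.natDegree a) (Rc b.natDegree b)
    (Rc_ne _ _ le_rfl hd0) (Rc_ne _ _ le_rfl ha0)
  rw [← mp_eq_log_m1 _ d le_rfl, hd] at h1
  have h2 : mx1 (Rc d.natDegree d * Rc a.natDegree a) (Rc d.natDegree d * Rc b.natDegree b) =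
      hp (toC p) (toC q) := by
    rw [← Rc_mul _ _ _ _ le_rfl le_rfl, ← Rc_mul _ _ _ _ le_rfl le_rfl, ha, hb]
    unfold mx1 hp
    refine intervalIntegral.integral_congr fun t _ => ?_
    show Real.log (max ‖ev1 _ t‖ ‖ev1 _ t‖) = _
    rw [norm_ev1_Rc _ p (by rw [← ha]; exact natDegree_mul_le),
      norm_ev1_Rc _ q (by rw [← hb]; exact natDegree_mul_le)]
  rw [h2] at h1
  linarith

theorem mp_zero_of_dvd (d q : ℤ[X]) (hq : q ≠ 0) (hd : d ∣ q) (h : mp (toC q) = 0) :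
    mp (toC d) = 0 := by
  obtain ⟨e, rfl⟩ := hd
  have hd0 : d ≠ 0 := left_ne_zero_of_mul hq
  have he0 : e ≠ 0 := right_ne_zero_of_mul hq
  rw [mp_int_mul d e hd0 he0] at h
  have h1 := mp_int_nonneg d hd0
  have h2 := mp_int_nonneg e he0
  linarith

/-- the gap -/
theorem pair_gap (K : ℝ) : ∃ δ : ℝ, 0 < δ ∧ ∀ p q : ℤ[X], p.Monic → q ≠ 0 →
    (∀ d : ℤ[X], d ∣ p → d ∣ q → mp (toC d) = 0) → hp (toC p) (toC q) ≤ K →
    mp (toC p) = 0 ∨ δ ≤ mp (toC p) := by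
  obtain ⟨c, hc, h⟩ := gap_one K
  refine ⟨Real.log c, Real.log_pos hc, fun p q hpm hq hgcd hK => ?_⟩
  obtain ⟨A, B, hA, hB, hAB, h1, h2⟩ := pair_main p q hpm hq hgcd
  rcases h A B hA hB hAB (h1.le.trans hK) with h3 | h3
  · left
    rw [← h2, h3, Real.log_one]
  · right
    rw [← h2]
    exact Real.log_le_log (by linarith) h3

/-- one variable measures belong to the closed sets -/
theorem m1_mem_LL (A B : ℤ[X]) (hA : A ≠ 0) (hB : B ≠ 0) (hAB : IsRelPrime A B) (K : ℝ)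
    (hK : mx1 A B ≤ K) : m1 A ∈ LL K := by
  obtain ⟨k, e, C, D, hk, hC, hD, hCD, _, _, h1, h2⟩ :=
    pairs_compact_general (fun _ => A) (fun _ => B) (fun _ => hA) (fun _ => hB) (fun _ => hAB) K
      (fun _ => hK)
  have h3 : m1 A = mM C := tendsto_nhds_unique tendsto_const_nhds h1
  have h4 : mx1 A B = mx C D := tendsto_nhds_unique tendsto_const_nhds h2
  exact ⟨k, hk, C, D, hC, hD, hCD, by rw [← h4]; exact hK, h3⟩

theorem pair_LL (p q : ℤ[X]) (hpm : p.Monic) (hq : q ≠ 0)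
    (hgcd : ∀ d : ℤ[X], d ∣ p → d ∣ q → mp (toC d) = 0) (K : ℝ)
    (hK : hp (toC p) (toC q) ≤ K) : Real.exp (mp (toC p)) ∈ LL K := by
  obtain ⟨A, B, hA, hB, hAB, h1, h2⟩ := pair_main p q hpm hq hgcd
  have h3 := m1_mem_LL A B hA hB hAB K (h1.le.trans hK)
  have h4 : 0 < m1 A := lt_of_lt_of_le one_pos (I1_one_le_m1 hA)
  rw [← h2, Real.exp_log h4]
  exact h3

end

end Pool.Agent.W242.IM
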