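import Mathlib
import Pool.Agent.W242.IM.Min

/-!
# Hermitian matrices all of whose principal submatrices have integral characteristic polynomial
-/

set_option autoImplicit false
set_option linter.unusedSectionVars false

namespace Pool.Agent.W242.IM

open MeasureTheory Polynomial Filter Matrix
open Pool.Agent.H261R2.CM (toC)

noncomputable section

/-- integrality of the characteristic polynomial of a principal submatrix -/
def Itg {ι : Type*} [Fintype ι] [DecidableEq ι] (A : Matrix ι ι ℂ) (U : Finset ι) : Prop :=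
  ∃ p : ℤ[X], toC p = cp A U

theorem toC_monic {p : ℤ[X]} (h : (toC p).Monic) : p.Monic :=
  (Function.Injective.monic_map_iff (RingHom.injective_int (Int.castRingHom ℂ))).mpr h

/-- the pair obtained by deleting rows such that the rest is cyclotomic -/
theorem gcd_cond {ι : Type*} [Fintype ι] [DecidableEq ι] {A : Matrix ι ι ℂ} (p q : ℤ[X])
    (U W : Finset ι) (hp : toC p = cp A U) (hq : toC q = cp A W) (h0 : mp (cp A W) = 0) :
    p.Monic ∧ q ≠ 0 ∧ ∀ d : ℤ[X], d ∣ p → d ∣ q → mp (toC d) = 0 := by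
  have h1 : p.Monic := toC_monic (by rw [hp]; exact charpoly_monic _)
  have h2 : q.Monic := toC_monic (by rw [hq]; exact charpoly_monic _)
  refine ⟨h1, h2.ne_zero, fun d _ hd => mp_zero_of_dvd d q h2.ne_zero hd ?_⟩
  rw [hq, h0]

theorem gap_min : ∃ δ : ℝ, 0 < δ ∧ ∀ (n : ℕ) (A : Matrix (Fin n) (Fin n) ℂ), A.IsHermitian →
    ∀ (U : Finset (Fin n)) (v : Fin n), v ∈ U → Itg A U → Itg A (U.erase v) →
      mp (cp A (U.erase v)) = 0 → mp (cp A U) = 0 ∨ δ ≤ mp (cp A U) := by
  obtain ⟨δ, hδ, h⟩ := pair_gap (3 + 5 * Real.log 2)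
  refine ⟨min δ 1, lt_min hδ one_pos, fun n A hA U v hv ⟨p, hp1⟩ ⟨q, hq1⟩ h0 => ?_⟩
  rcases le_or_gt (mp (cp A U)) 1 with h1 | h1
  · obtain ⟨g1, g2, g3⟩ := gcd_cond p q U (U.erase v) hp1 hq1 h0
    have h2 := (height_erase hA U v hv).2
    have h3 : hp (toC p) (toC q) ≤ 3 + 5 * Real.log 2 := by
      rw [hp1, hq1]
      unfold hp
      linarith
    rcases h p q g1 g2 g3 h3 with h4 | h4
    · left
      rw [← hp1, h4]
    · right
      rw [← hp1]
      exact (min_le_left _ _).trans h4
  · right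
    exact (min_le_right _ _).trans h1.le

theorem mp_empty {ι : Type*} [Fintype ι] [DecidableEq ι] (A : Matrix ι ι ℂ) (hA : A.IsHermitian) :
    mp (cp A ∅) = 0 := by
  unfold cp
  rw [(mp_charpoly (sm_hermitian hA ∅)).2]
  exact Fintype.sum_empty _

theorem exists_minimal {ι : Type*} [Fintype ι] [DecidableEq ι] (A : Matrix ι ι ℂ)
    (U : Finset ι) (hU : mp (cp A U) ≠ 0) :
    ∃ V ⊆ U, mp (cp A V) ≠ 0 ∧ ∀ v ∈ V, mp (cp A (V.erase v)) = 0 := by
  induction U using Finset.strongInduction with
  | H U ih =>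
    by_cases h : ∀ v ∈ U, mp (cp A (U.erase v)) = 0
    · exact ⟨U, Finset.Subset.refl _, hU, h⟩
    · push Not at h
      obtain ⟨v, hv, hne⟩ := h
      obtain ⟨V, hV, h1, h2⟩ := ih (U.erase v) (Finset.erase_ssubset hv) hne
      exact ⟨V, hV.trans (Finset.erase_subset _ _), h1, h2⟩

/-- Noncyclotomic matrices contain small noncyclotomic principal submatrices. -/
theorem size_bound : ∃ (δ : ℝ) (N : ℕ), 0 < δ ∧ ∀ (n : ℕ) (A : Matrix (Fin n) (Fin n) ℂ),
    A.IsHermitian → (∀ U, Itg A U) → ∀ U, mp (cp A U) ≠ 0 →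
      ∃ V ⊆ U, V.card ≤ N ∧ δ ≤ mp (cp A V) := by
  obtain ⟨δ, hδ, h⟩ := gap_min
  obtain ⟨N, hN, hN'⟩ := exists_size δ hδ
  refine ⟨δ, N, hδ, fun n A hA hI U hU => ?_⟩
  obtain ⟨V, hV, h1, h2⟩ := exists_minimal A U hU
  have hne : V.Nonempty := by
    rw [Finset.nonempty_iff_ne_empty]
    rintro rfl
    exact h1 (mp_empty A hA)
  obtain ⟨v, hv⟩ := hne
  have h3 : δ ≤ mp (cp A V) := (h n A hA V v hv (hI V) (hI _) (h2 v hv)).resolve_left h1
  refine ⟨V, hV, ?_, h3⟩
  by_contra hcon
  push Not at hcon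
  have h4 := mp_le_of_del_cyc (sm_hermitian hA V) (by rw [Fintype.card_coe]; omega) (fun w => by
    have h5 : w = ⟨w.1, w.2⟩ := rfl
    rw [h5, cp_erase A V w.1 w.2]
    exact h2 w.1 w.2)
  rw [Fintype.card_coe] at h4
  have h5 := hN' V.card hcon.le
  have h6 : mp (sm A V).charpoly = mp (cp A V) := rfl
  rw [h6] at h4
  linarith

/-! ### Unions of separated sets -/

/-- the equivalence for a block -/
def blockEquiv {ι : Type*} [DecidableEq ι] (W U : Finset ι) (h : U ⊆ W) :
    {a : W // (a : ι) ∈ U} ≃ U where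
  toFun a := ⟨a.1.1, a.2⟩
  invFun a := ⟨⟨a.1, h a.2⟩, a.2⟩
  left_inv _ := rfl
  right_inv _ := rfl

theorem cp_union {ι : Type*} [Fintype ι] [DecidableEq ι] (A : Matrix ι ι ℂ) (U V : Finset ι)
    (hd : Disjoint U V) (h0 : ∀ i ∈ V, ∀ j ∈ U, A i j = 0) :
    cp A (U ∪ V) = cp A U * cp A V := by
  unfold cp Matrix.charpoly
  rw [twoBlockTriangular_det (charmatrix (sm A (U ∪ V))) (fun i => (i : ι) ∈ U)]
  · congr 1
    · rw [← det_submatrix_equiv_self (blockEquiv (U ∪ V) U Finset.subset_union_left)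
        (charmatrix (sm A U))]
      congr 1
      ext1 i j
      rw [toSquareBlockProp_def, of_apply, Matrix.submatrix_apply, charmatrix_apply,
        charmatrix_apply]
      congr 1
      simp only [diagonal_apply]
      congr 1
      refine propext ⟨fun h => ?_, fun h => ?_⟩
      · apply Subtype.ext
        exact congrArg (fun x : (U ∪ V : Finset ι) => x.1) h
      · apply Subtype.ext
        exact congrArg (fun x : U => x.1) h
    · have hiff : ∀ a : (U ∪ V : Finset ι), ¬ (a : ι) ∈ U ↔ (a : ι) ∈ V := by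
        intro a
        constructor
        · intro h
          rcases Finset.mem_union.mp a.2 with h1 | h1
          · exact absurd h1 h
          · exact h1
        · intro h h1
          exact Finset.disjoint_left.mp hd h1 h
      set e : {a : (U ∪ V : Finset ι) // ¬ (a : ι) ∈ U} ≃ V :=
        (Equiv.subtypeEquivRight hiff).trans (blockEquiv (U ∪ V) V Finset.subset_union_right) with he
      rw [← det_submatrix_equiv_self e (charmatrix (sm A V))]
      congr 1
      ext1 i j
      rw [toSquareBlockProp_def, of_apply, Matrix.submatrix_apply, charmatrix_apply,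
        charmatrix_apply]
      congr 1
      simp only [diagonal_apply]
      congr 1
      refine propext ⟨fun h => ?_, fun h => ?_⟩
      · apply Subtype.ext
        exact congrArg (fun x : (U ∪ V : Finset ι) => x.1) h
      · apply Subtype.ext
        exact congrArg (fun x : V => x.1) h
  · intro i hi j hj
    have hiV : (i : ι) ∈ V := by
      rcases Finset.mem_union.mp i.2 with h1 | h1
      · exact absurd h1 hi
      · exact h1
    have hij : i ≠ j := by
      rintro rfl
      exact hi hj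
    rw [charmatrix_apply_ne _ _ _ hij]
    unfold sm
    rw [Matrix.submatrix_apply, h0 i hiV j hj]
    simp

theorem mp_mul_cp {ι : Type*} [Fintype ι] [DecidableEq ι] {A : Matrix ι ι ℂ} (hA : A.IsHermitian)
    (U V : Finset ι) : mp (cp A U * cp A V) = mp (cp A U) + mp (cp A V) := by
  unfold mp
  rw [← intervalIntegral.integral_add (cp_integrable hA U) (cp_integrable hA V)]
  refine intervalIntegral.integral_congr_ae ?_
  filter_upwards [cp_ae hA U, cp_ae hA V] with t h1 h2 _
  rw [eval_mul, norm_mul, Real.log_mul (norm_ne_zero_iff.mpr h1) (norm_ne_zero_iff.mpr h2)]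

/-- pairwise separated families -/
def Sep {ι : Type*} [Fintype ι] [DecidableEq ι] (A : Matrix ι ι ℂ) (F : Finset (Finset ι)) : Prop :=
  ∀ U ∈ F, ∀ V ∈ F, U ≠ V → Disjoint U V ∧ ∀ i ∈ U, ∀ j ∈ V, A i j = 0

theorem mp_sum {ι : Type*} [Fintype ι] [DecidableEq ι] {A : Matrix ι ι ℂ} (hA : A.IsHermitian)
    (F : Finset (Finset ι)) (hF : Sep A F) :
    mp (cp A (F.biUnion id)) = ∑ U ∈ F, mp (cp A U) := by
  induction F using Finset.induction_on with
  | empty =>
    rw [Finset.biUnion_empty, Finset.sum_empty]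
    exact mp_empty A hA
  | insert V F hV ih =>
    have hF' : Sep A F := fun U hU W hW hne =>
      hF U (Finset.mem_insert_of_mem hU) W (Finset.mem_insert_of_mem hW) hne
    rw [Finset.biUnion_insert, Finset.sum_insert hV, ← ih hF', id, cp_union A V (F.biUnion id),
      mp_mul_cp hA]
    · rw [Finset.disjoint_biUnion_right]
      intro U hU
      exact (hF V (Finset.mem_insert_self _ _) U (Finset.mem_insert_of_mem hU)
        (by rintro rfl; exact hV hU)).1
    · intro i hi j hj
      obtain ⟨U, hU, hiU⟩ := Finset.mem_biUnion.mp hi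
      exact (hF U (Finset.mem_insert_of_mem hU) V (Finset.mem_insert_self _ _)
        (by rintro rfl; exact hV hU)).2 i hiU j hj

end

end Pool.Agent.W242.IM
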