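import Mathlib
import Pool.Agent.W242.IM.Deg

/-!
# Deleting boundedly many rows makes a matrix of bounded measure cyclotomic
-/

set_option autoImplicit false
set_option linter.unusedSectionVars false

namespace Pool.Agent.W242.IM

open MeasureTheory Polynomial Filter Matrix
open Pool.Agent.H261R2.CM

noncomputable section

theorem mp_univ {ι : Type*} [Fintype ι] [DecidableEq ι] (A : Matrix ι ι ℂ) :
    cp A Finset.univ = A.charpoly := by
  have e : (Finset.univ : Finset ι) ≃ ι := Equiv.subtypeUnivEquiv (fun x => Finset.mem_univ x)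
  have := charpoly_reindex (Equiv.subtypeUnivEquiv (fun x => Finset.mem_univ x) : (Finset.univ : Finset ι) ≃ ι)
    (sm A Finset.univ)
  unfold cp
  rw [← this]
  rfl

/-- Lehmer's problem for the class. -/
theorem lehmer_H : ∃ δ : ℝ, 0 < δ ∧ ∀ (n : ℕ) (A : Matrix (Fin n) (Fin n) ℂ),
    A.IsHermitian → (∀ U, Itg A U) → mp A.charpoly = 0 ∨ δ ≤ mp A.charpoly := by
  obtain ⟨δ, N, hδ, h⟩ := size_bound
  refine ⟨δ, hδ, fun n A hA hI => ?_⟩
  by_cases h0 : mp A.charpoly = 0
  · exact Or.inl h0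
  · right
    rw [← mp_univ] at h0 ⊢
    obtain ⟨V, hV, _, h1⟩ := h n A hA hI Finset.univ h0
    exact h1.trans (mp_mono hA hV)

theorem deletion (b : ℝ) : ∃ s : ℕ, ∀ (n : ℕ) (A : Matrix (Fin n) (Fin n) ℂ),
    A.IsHermitian → (∀ U, Itg A U) → mp A.charpoly ≤ b →
      ∃ S : Finset (Fin n), S.card ≤ s ∧ mp (cp A (Finset.univ \ S)) = 0 := by
  classical
  obtain ⟨δ, N, hδ, h⟩ := size_bound
  refine ⟨⌊b / δ⌋₊ * N * (1 + ⌊1 + 4 * Real.exp (2 * b)⌋₊), fun n A hA hI hb => ?_⟩
  set good : Finset (Finset (Finset (Fin n))) := Finset.univ.filter fun F =>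
    Sep A F ∧ ∀ U ∈ F, U.card ≤ N ∧ δ ≤ mp (cp A U) with hgood
  have hne : good.Nonempty := by
    refine ⟨∅, ?_⟩
    rw [hgood, Finset.mem_filter]
    refine ⟨Finset.mem_univ _, ?_, ?_⟩
    · intro U hU
      exact absurd hU (Finset.notMem_empty U)
    · intro U hU
      exact absurd hU (Finset.notMem_empty U)
  obtain ⟨F, hF, hmax⟩ := Finset.exists_max_image good Finset.card hne
  rw [hgood, Finset.mem_filter] at hF
  obtain ⟨-, hsep, hFU⟩ := hF
  have hcard : (F.card : ℝ) * δ ≤ b := by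
    have h1 := mp_sum hA F hsep
    have h2 : (F.card : ℝ) * δ ≤ ∑ U ∈ F, mp (cp A U) := by
      rw [← nsmul_eq_mul]
      exact Finset.card_nsmul_le_sum F _ δ (fun U hU => (hFU U hU).2)
    have h3 := mp_mono hA (Finset.subset_univ (F.biUnion id))
    rw [mp_univ] at h3
    linarith
  have hFcard : F.card ≤ ⌊b / δ⌋₊ := by
    apply Nat.le_floor
    rw [le_div_iff₀ hδ]
    exact hcard
  set W := F.biUnion id with hW
  have hWcard : W.card ≤ ⌊b / δ⌋₊ * N := by
    calc W.card ≤ ∑ U ∈ F, (id U).card := Finset.card_biUnion_le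
      _ ≤ ∑ U ∈ F, N := Finset.sum_le_sum fun U hU => (hFU U hU).1
      _ = F.card * N := by rw [Finset.sum_const, smul_eq_mul]
      _ ≤ ⌊b / δ⌋₊ * N := Nat.mul_le_mul_right N hFcard
  set D := ⌊1 + 4 * Real.exp (2 * b)⌋₊ with hD
  set S := W ∪ W.biUnion (fun i => Finset.univ.filter fun j => A i j ≠ 0) with hS
  have hdeg : ∀ i, (Finset.univ.filter fun j => A i j ≠ 0).card ≤ D := by
    intro i
    apply Nat.le_floor
    exact degree_bound hA hI b hb i
  have hScard : S.card ≤ ⌊b / δ⌋₊ * N * (1 + D) := by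
    calc S.card ≤ W.card + (W.biUnion (fun i => Finset.univ.filter fun j => A i j ≠ 0)).card :=
          Finset.card_union_le _ _
      _ ≤ W.card + W.card * D := by
          refine Nat.add_le_add_left ?_ _
          exact Finset.card_biUnion_le_card_mul _ _ _ fun i _ => hdeg i
      _ = W.card * (1 + D) := by ring
      _ ≤ ⌊b / δ⌋₊ * N * (1 + D) := Nat.mul_le_mul_right _ hWcard
  refine ⟨S, hScard, ?_⟩
  by_contra hcon
  obtain ⟨V, hV, hVN, hVδ⟩ := h n A hA hI _ hcon
  have hVS : ∀ v ∈ V, v ∉ S := fun v hv => (Finset.mem_sdiff.mp (hV hv)).2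
  have hVF : V ∉ F := by
    intro hVF
    have hVe : V = ∅ := by
      rw [Finset.eq_empty_iff_forall_notMem]
      intro v hv
      exact hVS v hv (Finset.mem_union_left _ (Finset.mem_biUnion.mpr ⟨V, hVF, hv⟩))
    rw [hVe, mp_empty A hA] at hVδ
    linarith
  have hnew : insert V F ∈ good := by
    rw [hgood, Finset.mem_filter]
    refine ⟨Finset.mem_univ _, ?_, ?_⟩
    · have key : ∀ U ∈ F, Disjoint U V ∧ ∀ i ∈ U, ∀ j ∈ V, A i j = 0 := by
        intro U hU
        constructor
        · rw [Finset.disjoint_left]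
          intro i hiU hiV
          exact hVS i hiV (Finset.mem_union_left _ (Finset.mem_biUnion.mpr ⟨U, hU, hiU⟩))
        · intro i hi j hj
          by_contra hne
          refine hVS j hj (Finset.mem_union_right _ (Finset.mem_biUnion.mpr
            ⟨i, Finset.mem_biUnion.mpr ⟨U, hU, hi⟩, ?_⟩))
          exact Finset.mem_filter.mpr ⟨Finset.mem_univ _, hne⟩
      intro U hU U' hU' hne
      rcases Finset.mem_insert.mp hU with hU1 | hU1 <;>
        rcases Finset.mem_insert.mp hU' with hU2 | hU2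
      · exact absurd (hU1.trans hU2.symm) hne
      · subst hU1
        refine ⟨(key U' hU2).1.symm, fun i hi j hj => ?_⟩
        have h1 := (key U' hU2).2 j hj i hi
        rw [← hA.apply i j, h1, star_zero]
      · subst hU2
        exact key U hU1
      · exact hsep U hU1 U' hU2 hne
    · intro U hU
      rcases Finset.mem_insert.mp hU with rfl | hU
      · exact ⟨hVN, hVδ⟩
      · exact hFU U hU
  have := hmax _ hnew
  rw [Finset.card_insert_of_notMem hVF] at this
  omega

/-- The measures at most `exp b` in the class are measures of coprime pairs of bounded height. -/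
theorem class_LL (b : ℝ) : ∃ K : ℝ, ∀ (n : ℕ) (A : Matrix (Fin n) (Fin n) ℂ),
    A.IsHermitian → (∀ U, Itg A U) → mp A.charpoly ≤ b → Real.exp (mp A.charpoly) ∈ LL K := by
  obtain ⟨s, hs⟩ := deletion b
  refine ⟨b + s * (2 * b + 5 * Real.log 2), fun n A hA hI hb => ?_⟩
  obtain ⟨S, hS, h0⟩ := hs n A hA hI hb
  obtain ⟨p, hp1⟩ := hI Finset.univ
  obtain ⟨q, hq1⟩ := hI (Finset.univ \ S)
  obtain ⟨g1, g2, g3⟩ := gcd_cond p q Finset.univ (Finset.univ \ S) hp1 hq1 h0
  have h1 := height_chain hA Finset.univ S (Finset.subset_univ S)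
  have h2 : mp (cp A Finset.univ) ≤ b := by rw [mp_univ]; exact hb
  have h3 : 0 ≤ mp (cp A Finset.univ) := cp_nonneg hA _
  have hl2 : 0 < Real.log 2 := Real.log_pos (by norm_num)
  have h4 : (S.card : ℝ) ≤ s := by exact_mod_cast hS
  have h5 : (S.card : ℝ) * (2 * mp (cp A Finset.univ) + 5 * Real.log 2) ≤
      s * (2 * b + 5 * Real.log 2) := by
    apply mul_le_mul h4 (by linarith) (by positivity) (by positivity)
  have h6 := pair_LL p q g1 g2 g3 (b + s * (2 * b + 5 * Real.log 2)) (by
    rw [hp1, hq1]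
    unfold hp
    linarith)
  rw [hp1, mp_univ] at h6
  exact h6

end

end Pool.Agent.W242.IM
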