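import Mathlib
import Pool.Agent.W242.IM.Block2

/-!
# Integer polynomials interlacing a real-rooted polynomial
-/

set_option autoImplicit false
set_option linter.unusedSectionVars false

namespace Pool.Agent.W242.IM

open MeasureTheory Polynomial Filter Matrix
open Pool.Agent.H261R2.CM

noncomputable section

variable {ι : Type*} [Fintype ι] [DecidableEq ι]

theorem det_diag_rank_one (d u v : ι → ℂ) (hd : ∀ i, d i ≠ 0) :
    (diagonal d + vecMulVec u v).det = (∏ i, d i) * (1 + ∑ i, v i * ((d i)⁻¹ * u i)) := by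
  have h1 : diagonal d + vecMulVec u v =
      diagonal d * (1 + replicateCol Unit (fun i => (d i)⁻¹ * u i) * replicateRow Unit v) := by
    rw [mul_add, mul_one]
    congr 1
    ext i j
    rw [diagonal_mul, vecMulVec_apply, mul_apply]
    simp only [replicateCol_apply, replicateRow_apply, Finset.univ_unique, Finset.sum_singleton]
    rw [← mul_assoc, ← mul_assoc, mul_inv_cancel₀ (hd i), one_mul]
  rw [h1, det_mul, det_diagonal, det_one_add_replicateCol_mul_replicateRow]
  rfl

/-- the real function `∑ w_j ∏_{i ≠ j} (t - l_i)` -/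
def wt (l w : ι → ℝ) (t : ℝ) : ℝ := ∑ j, w j * ∏ i ∈ Finset.univ.erase j, (t - l i)

theorem height_weights (l w : ι → ℝ) (hw : ∀ j, 0 ≤ w j) (L : ℝ) (hL : ∑ j, w j ≤ L) :
    ∫ t in (0:ℝ)..1, Real.log (max |∏ j, (tc t - l j)| |wt l w (tc t)|) ≤
      3 * ∑ j, phi (l j) + Real.log 2 + 2 * Real.log (2 + 2 * L) := by
  set A : Matrix ι ι ℂ := diagonal (fun j => ((l j : ℝ) : ℂ)) with hAdef
  have hA : A.IsHermitian := by
    rw [hAdef]
    refine isHermitian_diagonal_of_self_adjoint _ ?_
    funext j
    exact Complex.conj_ofReal _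
  set x : ι → ℂ := fun j => ((Real.sqrt (w j) : ℝ) : ℂ) with hx
  have hnx : nsq x = ∑ j, w j := by
    unfold nsq
    refine Finset.sum_congr rfl fun j _ => ?_
    rw [hx, Complex.norm_real, Real.norm_eq_abs, sq_abs, Real.sq_sqrt (hw j)]
  have hsum : ∑ j, phi (hA.eigenvalues j) = ∑ j, phi (l j) := by
    have h1 := (mp_charpoly hA).2
    have h2 := (integrable_prod l (fun t => ∏ j, (tc t - l j)) (Eventually.of_forall fun _ => rfl)).2
    rw [← h1, ← h2]
    unfold mp
    refine intervalIntegral.integral_congr fun t _ => ?_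
    show Real.log ‖A.charpoly.eval ((tc t : ℝ) : ℂ)‖ = Real.log |∏ j, (tc t - l j)|
    congr 1
    rw [hAdef, charpoly_diagonal, eval_prod]
    have h3 : ∏ j, eval ((tc t : ℝ) : ℂ) (X - C ((l j : ℝ) : ℂ)) = ((∏ j, (tc t - l j) : ℝ) : ℂ) := by
      push_cast
      refine Finset.prod_congr rfl fun j _ => ?_
      simp
    rw [h3, Complex.norm_real, Real.norm_eq_abs]
  have h := height_abs (ι := ι) (fun t => ∏ j, (t - l j)) (wt l w) (by fun_prop)
    (by unfold wt; fun_prop) (3 * ∑ j, phi (l j) + 2 * Real.log (2 + 2 * L)) (fun c hc =>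
      ⟨(pert_hermitian hA x c).eigenvalues, ?_, ?_⟩)
  · exact h.2.trans (by linarith)
  · have hae : ∀ᵐ t : ℝ, ∀ j, tc t ≠ l j := by
      rw [ae_all_iff]
      exact fun j => ae_tc_ne (l j)
    filter_upwards [hae] with t ht
    have h1 := charpoly_eval (pert_hermitian hA x c) (tc t)
    rw [eval_charpoly] at h1
    set d : ι → ℂ := fun j => ((tc t - l j : ℝ) : ℂ) with hd
    have hd0 : ∀ j, d j ≠ 0 := by
      intro j
      rw [hd]
      simp only [ne_eq, Complex.ofReal_eq_zero]
      exact sub_ne_zero.mpr (ht j)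
    have h2 : Matrix.scalar ι ((tc t : ℝ) : ℂ) - pert A x c =
        diagonal d + vecMulVec (fun j => -(c : ℂ) * x j) (star x) := by
      ext i j
      unfold pert
      rw [hAdef, hd]
      simp only [scalar_apply, Matrix.sub_apply, Matrix.add_apply, Matrix.smul_apply,
        vecMulVec_apply, diagonal_apply, smul_eq_mul]
      split_ifs <;> push_cast <;> ring
    rw [h2, det_diag_rank_one d _ _ hd0] at h1
    have h3 : (∏ i, d i) * (1 + ∑ i, (star x) i * ((d i)⁻¹ * (-(c : ℂ) * x i))) =
        ((∏ j, (tc t - l j) - c * wt l w (tc t) : ℝ) : ℂ) := by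
      have h4 : ∀ i, (star x) i * x i = ((w i : ℝ) : ℂ) := by
        intro i
        rw [Pi.star_apply, hx]
        simp only [Complex.star_def, Complex.conj_ofReal]
        rw [← Complex.ofReal_mul, Real.mul_self_sqrt (hw i)]
      have h5 : ∀ j, (∏ i, d i) * (d j)⁻¹ =
          ((∏ i ∈ Finset.univ.erase j, (tc t - l i) : ℝ) : ℂ) := by
        intro j
        rw [← Finset.mul_prod_erase Finset.univ d (Finset.mem_univ j)]
        rw [mul_comm (d j), mul_assoc, mul_inv_cancel₀ (hd0 j), mul_one]
        push_cast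
        rw [hd]
        refine Finset.prod_congr rfl fun i _ => ?_
        push_cast
        rfl
      rw [mul_add, mul_one, Finset.mul_sum]
      unfold wt
      push_cast
      rw [sub_eq_add_neg, Finset.mul_sum, ← Finset.sum_neg_distrib]
      congr 1
      · rw [hd]
        refine Finset.prod_congr rfl fun i _ => ?_
        push_cast
        rfl
      · refine Finset.sum_congr rfl fun j _ => ?_
        have h6 := h5 j
        push_cast at h6
        rw [← h6, ← h4 j]
        ring
    rw [h3] at h1
    exact Complex.ofReal_injective h1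
  · have h1 := sum_phi_pert hA x L (by rw [hnx]; exact hL) c hc
    rw [hsum] at h1
    exact h1

end

end Pool.Agent.W242.IM
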