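import Mathlib
import Pool.Agent.W242.IM.Interl

/-!
# Hermitian matrices over the ring of integers of a number field
-/

set_option autoImplicit false
set_option linter.unusedSectionVars false

namespace Pool.Agent.W242.IM

open MeasureTheory Polynomial Filter Matrix NumberField
open Pool.Agent.H261R2.CM

noncomputable section

/-- the restriction of an embedding to the ring of integers -/
def emb {K : Type} [Field K] (σ : K →+* ℂ) : 𝓞 K →+* ℂ := σ.comp (algebraMap (𝓞 K) K)

variable (K : Type) [Field K] [NumberField K]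

/-- the product of the conjugates of a polynomial -/
def normPoly (p : (𝓞 K)[X]) : ℂ[X] := ∏ σ : K →+* ℂ, p.map (emb σ)

theorem normPoly_integral (p : (𝓞 K)[X]) (i : ℕ) : IsIntegral ℤ ((normPoly K p).coeff i) := by
  set S := integralClosure ℤ ℂ with hS
  have h1 : ∀ σ : K →+* ℂ, ∃ g : 𝓞 K →+* S, (S.subtype : S →+* ℂ).comp g = emb σ := by
    intro σ
    have h2 : ∀ x : 𝓞 K, emb σ x ∈ S := by
      intro x
      rw [hS, mem_integralClosure_iff]
      exact (RingOfIntegers.isIntegral_coe x).map σ.toIntAlgHom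
    exact ⟨(emb σ).codRestrict S.toSubring h2, RingHom.ext fun x => rfl⟩
  choose g hg using h1
  have h2 : normPoly K p = (∏ σ : K →+* ℂ, p.map (g σ)).map (S.subtype : S →+* ℂ) := by
    unfold normPoly
    rw [Polynomial.map_prod]
    refine Finset.prod_congr rfl fun σ _ => ?_
    rw [Polynomial.map_map, hg]
  rw [h2, coeff_map]
  exact ((∏ σ : K →+* ℂ, p.map (g σ)).coeff i).2

theorem normPoly_eval (p : (𝓞 K)[X]) (m : ℕ) :
    (normPoly K p).eval (m : ℂ) =
      ((Algebra.norm ℚ ((algebraMap (𝓞 K) K) (p.eval (m : 𝓞 K))) : ℚ) : ℂ) := by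
  have h1 := Algebra.norm_eq_prod_embeddings ℚ ℂ ((algebraMap (𝓞 K) K) (p.eval (m : 𝓞 K)))
  have h2 : (algebraMap ℚ ℂ) (Algebra.norm ℚ ((algebraMap (𝓞 K) K) (p.eval (m : 𝓞 K)))) =
    ((Algebra.norm ℚ ((algebraMap (𝓞 K) K) (p.eval (m : 𝓞 K))) : ℚ) : ℂ) := rfl
  rw [← h2, h1]
  unfold normPoly
  rw [eval_prod]
  refine Fintype.prod_equiv (RingHom.equivRatAlgHom K ℂ) _ _ fun σ => ?_
  rw [eval_map]
  have h3 : (emb σ) (p.eval (m : 𝓞 K)) = eval₂ (emb σ) ((m : ℕ) : ℂ) p := by
    have := Polynomial.hom_eval₂ p (RingHom.id (𝓞 K)) (emb σ) (m : 𝓞 K)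
    rw [RingHom.comp_id, map_natCast] at this
    exact this
  rw [← h3]
  rfl

theorem normPoly_rat (p : (𝓞 K)[X]) : ∃ Q : ℚ[X], Q.map (algebraMap ℚ ℂ) = normPoly K p := by
  set N := (normPoly K p).natDegree with hN
  set r : ℕ → ℚ := fun m => Algebra.norm ℚ ((algebraMap (𝓞 K) K) (p.eval (m : 𝓞 K))) with hr
  set Q : ℚ[X] := Lagrange.interpolate (Finset.range (N + 1)) (fun i : ℕ => (i : ℚ)) r with hQ
  have hinj : Set.InjOn (fun i : ℕ => (i : ℚ)) (Finset.range (N + 1)) := fun a _ b _ hab =>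
    Nat.cast_injective (R := ℚ) hab
  refine ⟨Q, ?_⟩
  refine eq_of_degrees_lt_of_eval_index_eq (s := Finset.range (N + 1)) (v := fun i : ℕ => (i : ℂ))
    (fun a _ b _ hab => Nat.cast_injective (R := ℂ) hab) ?_ ?_ ?_
  · refine lt_of_le_of_lt (degree_map_le) ?_
    exact Lagrange.degree_interpolate_lt _ hinj
  · refine lt_of_le_of_lt degree_le_natDegree ?_
    rw [Finset.card_range, ← hN]
    exact_mod_cast Nat.lt_succ_self N
  · intro i hi
    rw [normPoly_eval]
    have h1 := Lagrange.eval_interpolate_at_node r hinj hi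
    have h2 : (Q.map (algebraMap ℚ ℂ)).eval ((i : ℕ) : ℂ) = algebraMap ℚ ℂ (Q.eval (i : ℚ)) := by
      have h3 := Polynomial.hom_eval₂ Q (RingHom.id ℚ) (algebraMap ℚ ℂ) (i : ℚ)
      rw [RingHom.comp_id, map_natCast] at h3
      rw [eval_map]
      exact h3.symm
    rw [h2, hQ, h1]
    rfl

theorem normPoly_int (p : (𝓞 K)[X]) : ∃ P : ℤ[X], toC P = normPoly K p := by
  obtain ⟨Q, hQ⟩ := normPoly_rat K p
  have h1 : normPoly K p ∈ Polynomial.lifts (Int.castRingHom ℂ) := by
    rw [lifts_iff_coeff_lifts]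
    intro n
    have h2 := normPoly_integral K p n
    rw [← hQ, coeff_map] at h2 ⊢
    rw [isIntegral_algebraMap_iff (algebraMap ℚ ℂ).injective] at h2
    obtain ⟨y, hy⟩ := IsIntegrallyClosed.isIntegral_iff.mp h2
    refine ⟨y, ?_⟩
    rw [← hy]
    simp
  obtain ⟨P, hP⟩ := (Polynomial.mem_lifts _).mp h1
  exact ⟨P, hP⟩

/-! ### Block diagonal matrices -/

theorem charpoly_blockDiagonal {n E : Type} [Fintype n] [DecidableEq n] [Fintype E] [DecidableEq E]
    (M : E → Matrix n n ℂ) : (blockDiagonal M).charpoly = ∏ e, (M e).charpoly := by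
  unfold Matrix.charpoly
  rw [← det_blockDiagonal]
  congr 1
  ext1 ⟨i, e⟩ ⟨j, f⟩
  rw [charmatrix_apply, blockDiagonal_apply, blockDiagonal_apply]
  simp only [charmatrix_apply, diagonal_apply, Prod.mk.injEq]
  by_cases hef : e = f
  · subst hef
    by_cases hij : i = j <;> simp [hij]
  · simp [hef]

/-- the equivalence between the rows over a set of blocks and a product -/
def preEquiv {n : ℕ} {E : Type} [Fintype E] [DecidableEq E] (U : Finset (Fin n)) :
    (pre (Prod.fst : Fin n × E → Fin n) U : Finset (Fin n × E)) ≃ U × E where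
  toFun x := (⟨x.1.1, mem_pre.mp x.2⟩, x.1.2)
  invFun y := ⟨(y.1.1, y.2), mem_pre.mpr y.1.2⟩
  left_inv _ := rfl
  right_inv _ := rfl

theorem cp_blockDiagonal {n : ℕ} {E : Type} [Fintype E] [DecidableEq E]
    (M : E → Matrix (Fin n) (Fin n) ℂ) (U : Finset (Fin n)) :
    cp (blockDiagonal M) (pre (Prod.fst : Fin n × E → Fin n) U) = ∏ e, cp (M e) U := by
  unfold cp
  rw [← charpoly_reindex (preEquiv U) (sm (blockDiagonal M) (pre Prod.fst U))]
  rw [← charpoly_blockDiagonal]
  congr 1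

theorem blockDiagonal_hermitian {n E : Type} [Fintype n] [DecidableEq n] [Fintype E]
    [DecidableEq E] (M : E → Matrix n n ℂ) (h : ∀ e, (M e).IsHermitian) :
    (blockDiagonal M).IsHermitian := by
  unfold Matrix.IsHermitian
  rw [blockDiagonal_conjTranspose]
  congr 1
  funext e
  exact h e

theorem pre_fst_card {n : ℕ} {E : Type} [Fintype E] [DecidableEq E] (b : Fin n) :
    (pre (Prod.fst : Fin n × E → Fin n) {b}).card = Fintype.card E := by
  rw [← Fintype.card_coe, Fintype.card_congr (preEquiv (E := E) {b}), Fintype.card_prod]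
  simp

local instance instDecEmb : DecidableEq (K →+* ℂ) := Classical.decEq _

/-- the block matrix of the conjugates of a matrix over the ring of integers -/
def bigM {n : ℕ} (A : Matrix (Fin n) (Fin n) (𝓞 K)) :
    Matrix (Fin n × (K →+* ℂ)) (Fin n × (K →+* ℂ)) ℂ := blockDiagonal fun σ => A.map (emb σ)

theorem bigM_facts {n : ℕ} (A : Matrix (Fin n) (Fin n) (𝓞 K))
    (h : ∀ σ : K →+* ℂ, (A.map (emb σ)).IsHermitian) :
    (bigM K A).IsHermitian ∧ (bigM K A).charpoly = normPoly K A.charpoly ∧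
      ∀ U, Itg (bigM K A) (pre Prod.fst U) := by
  refine ⟨blockDiagonal_hermitian _ h, ?_, fun U => ?_⟩
  · unfold bigM normPoly
    rw [charpoly_blockDiagonal]
    refine Finset.prod_congr rfl fun σ _ => ?_
    rw [← charpoly_map]
  · have h1 := cp_blockDiagonal (fun σ : K →+* ℂ => A.map (emb σ)) U
    obtain ⟨P, hP⟩ := normPoly_int K (A.submatrix (Subtype.val : U → Fin n) Subtype.val).charpoly
    refine ⟨P, ?_⟩
    rw [hP]
    refine Eq.trans ?_ h1.symm
    unfold normPoly
    refine Finset.prod_congr rfl fun σ _ => ?_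
    rw [← charpoly_map]
    rfl

end

end Pool.Agent.W242.IM
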