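import Mathlib
import Pool.Agent.W242.IM.Final2

/-!
# The least measure above one in the class of block matrices
-/

set_option autoImplicit false
set_option linter.unusedSectionVars false

namespace Pool.Agent.W242.IM

open MeasureTheory Polynomial Filter Matrix
open Pool.Agent.H261R2.CM

noncomputable section

theorem charpoly_submatrix_equiv {m n : Type*} [Fintype m] [DecidableEq m] [Fintype n]
    [DecidableEq n] (M : Matrix n n ℂ) (e : m ≃ n) : (M.submatrix e e).charpoly = M.charpoly := by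
  have := charpoly_reindex e.symm M
  rw [reindex_apply, Equiv.symm_symm] at this
  exact this

/-- the hereditary class -/
def Cls {n k : ℕ} (A : Matrix (Fin n × Fin k) (Fin n × Fin k) ℂ) : Prop :=
  A.IsHermitian ∧ ∀ U : Finset (Fin n), ∃ P : ℤ[X], toC P = (blk A U).charpoly

/-- principal submatrices, reindexed -/
def rsub {n k : ℕ} (A : Matrix (Fin n × Fin k) (Fin n × Fin k) ℂ) (V : Finset (Fin n)) :
    Matrix (Fin V.card × Fin k) (Fin V.card × Fin k) ℂ :=
  A.submatrix (fun x => ((V.equivFin.symm x.1).1, x.2)) (fun x => ((V.equivFin.symm x.1).1, x.2))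

theorem rsub_charpoly {n k : ℕ} (A : Matrix (Fin n × Fin k) (Fin n × Fin k) ℂ)
    (V : Finset (Fin n)) : (rsub A V).charpoly = (blk A V).charpoly := by
  have h := charpoly_submatrix_equiv (blk A V) (Equiv.prodCongr V.equivFin.symm (Equiv.refl (Fin k)))
  rw [← h]
  rfl

theorem rsub_cls {n k : ℕ} {A : Matrix (Fin n × Fin k) (Fin n × Fin k) ℂ} (h : Cls A)
    (V : Finset (Fin n)) : Cls (rsub A V) := by
  refine ⟨h.1.submatrix _, fun U => ?_⟩
  set g : Fin V.card ↪ Fin n := V.equivFin.symm.toEmbedding.trans (Function.Embedding.subtype _) with hg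
  obtain ⟨P, hP⟩ := h.2 (U.map g)
  refine ⟨P, ?_⟩
  rw [hP]
  have hb : Function.Bijective (fun u : U => (⟨g u.1, Finset.mem_map_of_mem g u.2⟩ : (U.map g : Finset (Fin n)))) := by
    constructor
    · intro a b hab
      have h9 : g a.1 = g b.1 := congrArg (fun x : (U.map g : Finset (Fin n)) => x.1) hab
      exact Subtype.ext (g.injective h9)
    · rintro ⟨x, hx⟩
      obtain ⟨u, hu, rfl⟩ := Finset.mem_map.mp hx
      exact ⟨⟨u, hu⟩, rfl⟩
  have h1 := charpoly_submatrix_equiv (blk A (U.map g))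
    (Equiv.prodCongr (Equiv.ofBijective _ hb) (Equiv.refl (Fin k)))
  rw [← h1]
  rfl

theorem least_exists (k : ℕ) (hk : 1 ≤ k) : ∃ (N n : ℕ) (A : Matrix (Fin n × Fin k) (Fin n × Fin k) ℂ),
    n ≤ N ∧ Cls A ∧ 1 < MM A.charpoly ∧
    ∀ (n' : ℕ) (A' : Matrix (Fin n' × Fin k) (Fin n' × Fin k) ℂ), Cls A' →
      MM A'.charpoly = 1 ∨ MM A.charpoly ≤ MM A'.charpoly := by
  obtain ⟨N, μ, hμ, hsmall⟩ := fin_small k
  -- an element
  set A0 : Matrix (Fin 1 × Fin k) (Fin 1 × Fin k) ℂ := diagonal (fun _ => ((3 : ℝ) : ℂ)) with hA0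
  have hsub : ∀ U : Finset (Fin 1), blk A0 U = diagonal (fun _ => ((3 : ℝ) : ℂ)) := by
    intro U
    unfold blk
    rw [hA0]
    ext ⟨i, a⟩ ⟨j, b⟩
    rw [submatrix_apply, diagonal_apply, diagonal_apply]
    simp only [Prod.mk.injEq, Subtype.ext_iff]
  have hint : ∀ (m : ℕ) , toC ((X - C 3 : ℤ[X]) ^ m) = (X - C ((3 : ℝ) : ℂ)) ^ m := by
    intro m
    unfold toC
    rw [Polynomial.map_pow, Polynomial.map_sub, map_X, map_C]
    have h9 : (Int.castRingHom ℂ) 3 = ((3 : ℝ) : ℂ) := by norm_num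
    rw [h9]
  have hcls0 : Cls A0 := by
    refine ⟨isHermitian_diagonal_of_self_adjoint _ (by funext j; exact Complex.conj_ofReal _),
      fun U => ⟨(X - C 3) ^ (Fintype.card (U × Fin k)), ?_⟩⟩
    rw [hint, hsub, charpoly_diagonal, Finset.prod_const, Finset.card_univ]
  have hcp0 : ∃ P : ℤ[X], toC P = A0.charpoly := by
    refine ⟨(X - C 3) ^ (Fintype.card (Fin 1 × Fin k)), ?_⟩
    rw [hint, hA0, charpoly_diagonal, Finset.prod_const, Finset.card_univ]
  have hM0 : 1 < MM A0.charpoly := by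
    rw [MM_charpoly hcp0, Real.one_lt_exp_iff]
    have h1 : 0 ≤ mp A0.charpoly := by
      rw [← mp_univ]
      exact cp_nonneg hcls0.1 _
    refine lt_of_le_of_ne h1 (fun h0 => ?_)
    rw [eq_comm] at h0
    have h2 := qf_le_of_cyc hcls0.1 h0 (Pi.single (0, ⟨0, by omega⟩) 1)
    have h3 : nsq (Pi.single ((0 : Fin 1), (⟨0, by omega⟩ : Fin k)) (1 : ℂ)) = 1 := by
      unfold nsq
      rw [Finset.sum_eq_single (0, ⟨0, by omega⟩)]
      · simp
      · intro b _ hb
        simp [hb]
      · simp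
    have h4 : qf A0 (Pi.single (0, ⟨0, by omega⟩) 1) = 3 := by
      unfold qf
      simp [hA0]
    rw [h3, h4] at h2
    norm_num at h2
  -- the finite set of small values
  have hfin : Set.Finite {x : ℝ | ∃ (n : ℕ) (A : Matrix (Fin n × Fin k) (Fin n × Fin k) ℂ),
      n ≤ max N 1 ∧ Cls A ∧ 1 < MM A.charpoly ∧ MM A.charpoly ≤ MM A0.charpoly ∧
        x = MM A.charpoly} := by
    have hB : 0 ≤ MM A0.charpoly := by linarith
    have h1 := Polynomial.finite_mahlerMeasure_le (2 * (max N 1 * k)) ⟨MM A0.charpoly, hB⟩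
    refine (h1.image (fun p : ℤ[X] => (p.map (Int.castRingHom ℂ)).mahlerMeasure)).subset ?_
    rintro x ⟨n, A, hn, hA, h2, h3, rfl⟩
    obtain ⟨_, _, P, hP⟩ := block_hyp hA.2
    have hP0 := toC_charpoly_ne hP
    have hdeg : P.natDegree = n * k := by
      have h4 : (toC P).natDegree = P.natDegree :=
        natDegree_map_eq_of_injective (RingHom.injective_int _) P
      rw [← h4, hP, charpoly_natDegree_eq_dim]
      simp
    have hMM : MM A.charpoly = ((Rc P.natDegree P).map (Int.castRingHom ℂ)).mahlerMeasure := by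
      unfold MM
      rw [← hP, recP_toC]
      rfl
    refine ⟨Rc P.natDegree P, ⟨?_, ?_⟩, hMM.symm⟩
    · unfold Rc
      refine natDegree_sum_le_of_forall_le _ _ fun i hi => ?_
      have hi' : i ≤ P.natDegree := Nat.lt_succ_iff.mp (Finset.mem_range.mp hi)
      refine (natDegree_mul_le).trans ?_
      refine (add_le_add (natDegree_C_mul_le _ _) (natDegree_X_pow_le _)).trans ?_
      have h5 : ((X ^ 2 + 1 : ℤ[X]) ^ i).natDegree ≤ i * 2 := by
        refine natDegree_pow_le_of_le i ?_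
        refine (natDegree_add_le _ _).trans ?_
        simp
      have h6 : n * k ≤ max N 1 * k := Nat.mul_le_mul_right k hn
      omega
    · rw [← hMM]
      exact h3
  have hne : Set.Nonempty {x : ℝ | ∃ (n : ℕ) (A : Matrix (Fin n × Fin k) (Fin n × Fin k) ℂ),
      n ≤ max N 1 ∧ Cls A ∧ 1 < MM A.charpoly ∧ MM A.charpoly ≤ MM A0.charpoly ∧
        x = MM A.charpoly} := ⟨_, 1, A0, le_max_right _ _, hcls0, hM0, le_rfl, rfl⟩
  obtain ⟨x, ⟨n, A, hn, hA, hA1, hA2, rfl⟩, hmin⟩ := Set.exists_min_image _ id hfin hne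
  refine ⟨max N 1, n, A, hn, hA, hA1, fun n' A' hA' => ?_⟩
  obtain ⟨_, _, hP'⟩ := block_hyp hA'.2
  by_cases h1 : MM A'.charpoly = 1
  · exact Or.inl h1
  · right
    have hu : (blk A' Finset.univ).charpoly = A'.charpoly := by
      rw [blk_charpoly, pre_univ, mp_univ]
    obtain ⟨V, _, hVN, hVμ⟩ := hsmall n' A' hA'.1 hA'.2 Finset.univ (by rw [hu]; exact h1)
    have hle : MM (rsub A' V).charpoly ≤ MM A'.charpoly := by
      rw [rsub_charpoly, MM_charpoly (hA'.2 V), MM_charpoly hP', blk_charpoly, Real.exp_le_exp]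
      have := mp_mono hA'.1 (Finset.subset_univ (pre (Prod.fst : Fin n' × Fin k → Fin n') V))
      rwa [mp_univ] at this
    refine le_trans ?_ hle
    rcases le_total (MM (rsub A' V).charpoly) (MM A0.charpoly) with h2 | h2
    · exact hmin _ ⟨V.card, rsub A' V, hVN.trans (le_max_left _ _), rsub_cls hA' V,
        by rw [rsub_charpoly]; linarith, h2, rfl⟩
    · exact hA2.trans h2

end

end Pool.Agent.W242.IM
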