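import Mathlib
import Pool.Agent.W242.IM.Least

/-!
# The matrices over number fields belong to the class of block matrices
-/

set_option autoImplicit false
set_option linter.unusedSectionVars false

namespace Pool.Agent.W242.IM

open MeasureTheory Polynomial Filter Matrix NumberField
open Pool.Agent.H261R2.CM

noncomputable section

theorem nf_block (k : ℕ) (K : Type) [Field K] [NumberField K] (hk : Module.finrank ℚ K = k)
    (n : ℕ) (A : Matrix (Fin n) (Fin n) (𝓞 K)) (hA : ∀ σ : K →+* ℂ, (A.map (emb σ)).IsHermitian) :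
    ∃ B : Matrix (Fin n × Fin k) (Fin n × Fin k) ℂ, Cls B ∧
      B.charpoly = ∏ σ : K →+* ℂ, (A.map (emb σ)).charpoly := by
  have h1 : Fintype.card (K →+* ℂ) = k := (embCard K).trans hk
  obtain ⟨e⟩ : Nonempty (Fin k ≃ (K →+* ℂ)) := ⟨(Fintype.equivFinOfCardEq h1).symm⟩
  set M : Fin k → Matrix (Fin n) (Fin n) ℂ := fun i => A.map (emb (e i)) with hM
  refine ⟨blockDiagonal M, ⟨blockDiagonal_hermitian M fun i => hA (e i), fun U => ?_⟩, ?_⟩
  · have h2 := cp_blockDiagonal M U
    obtain ⟨P, hP⟩ := normPoly_int K (A.submatrix (Subtype.val : U → Fin n) Subtype.val).charpoly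
    refine ⟨P, ?_⟩
    rw [hP, blk_charpoly, h2]
    unfold normPoly
    rw [← Equiv.prod_comp e]
    refine Finset.prod_congr rfl fun σ _ => ?_
    rw [← charpoly_map]
    rfl
  · rw [charpoly_blockDiagonal, ← Equiv.prod_comp e]

/-- integral chains of principal submatrices -/
def HasChain {n : ℕ} (k : ℕ) (A : Matrix (Fin n) (Fin n) ℂ) : Prop :=
  ∃ (r : ℕ) (c : ℕ → Finset (Fin n)), c 0 = ∅ ∧ c r = Finset.univ ∧
    (∀ i, i < r → c i ⊆ c (i + 1) ∧ (c (i + 1) \ c i).card ≤ k) ∧
    ∀ i, i ≤ r → ∃ P : ℤ[X], toC P =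
      (A.submatrix (Subtype.val : c i → Fin n) Subtype.val).charpoly

theorem block_chain {n k : ℕ} {B : Matrix (Fin n × Fin k) (Fin n × Fin k) ℂ} (hB : Cls B) :
    ∃ C : Matrix (Fin (n * k)) (Fin (n * k)) ℂ, C.IsHermitian ∧ HasChain k C ∧
      C.charpoly = B.charpoly := by
  set e : Fin n × Fin k ≃ Fin (n * k) := finProdFinEquiv with he
  set U : ℕ → Finset (Fin n) := fun i => Finset.univ.filter (fun b => b.val < i) with hU
  set c : ℕ → Finset (Fin (n * k)) := fun i => (pre (Prod.fst : Fin n × Fin k → Fin n) (U i)).map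
    e.toEmbedding with hc
  refine ⟨B.submatrix e.symm e.symm, hB.1.submatrix _, ⟨n, c, ?_, ?_, fun i hi => ⟨?_, ?_⟩,
    fun i hi => ?_⟩, charpoly_submatrix_equiv B e.symm⟩
  · rw [hc]
    simp only [hU]
    simp [pre_empty]
  · rw [Finset.eq_univ_iff_forall]
    intro x
    simp only [hc, Finset.mem_map, Equiv.coe_toEmbedding]
    refine ⟨e.symm x, ?_, by simp⟩
    rw [mem_pre]
    simp [hU]
  · simp only [hc]
    refine Finset.map_subset_map.mpr fun x hx => ?_
    rw [mem_pre] at hx ⊢
    simp only [hU, Finset.mem_filter, Finset.mem_univ, true_and] at hx ⊢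
    omega
  · simp only [hc]
    rw [← Finset.map_sdiff, Finset.card_map]
    have h1 : pre (Prod.fst : Fin n × Fin k → Fin n) (U (i + 1)) \ pre Prod.fst (U i) ⊆
        pre (Prod.fst : Fin n × Fin k → Fin n) {⟨i, hi⟩} := by
      intro x hx
      rw [Finset.mem_sdiff, mem_pre, mem_pre] at hx
      rw [mem_pre, Finset.mem_singleton]
      simp only [hU, Finset.mem_filter, Finset.mem_univ, true_and] at hx
      apply Fin.ext
      simp only
      omega
    refine (Finset.card_le_card h1).trans ?_
    rw [pre_fst_card, Fintype.card_fin]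
  · obtain ⟨P, hP⟩ := hB.2 (U i)
    refine ⟨P, ?_⟩
    rw [hP, blk_charpoly]
    unfold cp
    set f : (pre (Prod.fst : Fin n × Fin k → Fin n) (U i)) ≃ (c i) :=
      { toFun := fun z => ⟨e z.1, Finset.mem_map_of_mem e.toEmbedding z.2⟩
        invFun := fun w => ⟨e.symm w.1, by
          obtain ⟨z, hz, h2⟩ := Finset.mem_map.mp w.2
          have h3 : e.symm w.1 = z := by
            rw [← h2]
            simp
          rw [h3]
          exact hz⟩
        left_inv := fun z => Subtype.ext (by simp)
        right_inv := fun w => Subtype.ext (by simp) } with hf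
    rw [← charpoly_submatrix_equiv ((B.submatrix e.symm e.symm).submatrix
      (Subtype.val : c i → Fin (n * k)) Subtype.val) f]
    congr 1
    unfold sm
    ext x y
    simp only [submatrix_apply]
    have h3 : ∀ z : (pre (Prod.fst : Fin n × Fin k → Fin n) (U i)), e.symm (f z).1 = z.1 := by
      intro z
      simp [hf]
    rw [h3, h3]

end

end Pool.Agent.W242.IM
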